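import Pool.Agent.Lib_helper85.VM.Defs

/-!
# MP_5582d1_ag, block RED: reduction of points is a homomorphism (helper58)
-/

set_option autoImplicit false

namespace Pool.Agent.VM

open scoped Classical

/-- the equation of `y² = x³ + a x² + b` over a field -/
lemma RED_eqn {R : Type} [CommRing R] {a b : R} {F : Type} [Field F] [Algebra R F] {x y : F} :
    ((SW a b).baseChange F).toAffine.Equation x y ↔
      y ^ 2 = x ^ 3 + algebraMap R F a * x ^ 2 + algebraMap R F b := by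
  rw [WeierstrassCurve.Affine.equation_iff]
  simp [SW, WeierstrassCurve.baseChange]

lemma RED_negY {R : Type} [CommRing R] {a b : R} {F : Type} [Field F] [Algebra R F] (x y : F) :
    ((SW a b).baseChange F).toAffine.negY x y = -y := by
  simp [WeierstrassCurve.Affine.negY, SW, WeierstrassCurve.baseChange]

/-- the data of an addition -/
structure RED_Add {F : Type} [Field F] (A x1 y1 x2 y2 x3 y3 lam : F) : Prop where
  h1 : lam * (x1 - x2) = y1 - y2
  h2 : lam * (y1 + y2) = x1 ^ 2 + x1 * x2 + x2 ^ 2 + A * (x1 + x2)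
  h3 : x3 = lam ^ 2 - A - x1 - x2
  h4 : y3 = -(lam * (x3 - x1) + y1)

/-- the sum of two points which are not opposite -/
lemma RED_add {R : Type} [CommRing R] {a b : R} {F : Type} [Field F] [Algebra R F]
    (h20 : (2 : F) ≠ 0)
    {x1 y1 x2 y2 : F} (p1 : ((SW a b).baseChange F).toAffine.Nonsingular x1 y1)
    (p2 : ((SW a b).baseChange F).toAffine.Nonsingular x2 y2) (hne : ¬ (x1 = x2 ∧ y1 = -y2)) :
    ∃ (x3 y3 : F) (p3 : ((SW a b).baseChange F).toAffine.Nonsingular x3 y3) (lam : F),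
      (WeierstrassCurve.Affine.Point.some x1 y1 p1 : Pt (SW a b) F) +
        WeierstrassCurve.Affine.Point.some x2 y2 p2 = WeierstrassCurve.Affine.Point.some x3 y3 p3 ∧
      RED_Add (algebraMap R F a) x1 y1 x2 y2 x3 y3 lam := by
  have e1 := RED_eqn.mp p1.1
  have e2 := RED_eqn.mp p2.1
  have hneg := RED_negY (a := a) (b := b) x2 y2
  have hxy : ¬ (x1 = x2 ∧ y1 = ((SW a b).baseChange F).toAffine.negY x2 y2) := by
    rw [hneg]; exact hne
  obtain ⟨lam, hlam⟩ : ∃ t, t = ((SW a b).baseChange F).toAffine.slope x1 x2 y1 y2 := ⟨_, rfl⟩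
  have hl : lam * (x1 - x2) = y1 - y2 ∧
      lam * (y1 + y2) = x1 ^ 2 + x1 * x2 + x2 ^ 2 + algebraMap R F a * (x1 + x2) := by
    by_cases hx : x1 = x2
    · have hy : y1 ≠ ((SW a b).baseChange F).toAffine.negY x2 y2 := fun h => hxy ⟨hx, h⟩
      have hsl := WeierstrassCurve.Affine.slope_of_Y_ne hx hy
      rw [← hlam] at hsl
      have hy12 : y1 = y2 := by
        have : (y1 - y2) * (y1 + y2) = 0 := by rw [hx] at e1; linear_combination e1 - e2
        rcases mul_eq_zero.mp this with h | h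
        · exact sub_eq_zero.mp h
        · exact absurd ⟨hx, eq_neg_of_add_eq_zero_left h⟩ hne
      subst hx
      subst hy12
      have hy0 : (2 : F) * y1 ≠ 0 := by
        intro h
        rcases mul_eq_zero.mp h with h | h
        · exact h20 h
        · exact hne ⟨rfl, by rw [h]; simp⟩
      refine ⟨by ring, ?_⟩
      have hd : y1 - (((SW a b).baseChange F).toAffine.negY x1 y1) = 2 * y1 := by
        rw [hneg]; ring
      rw [hd] at hsl
      have hn : 3 * x1 ^ 2 + 2 * ((SW a b).baseChange F).toAffine.a₂ * x1 +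
          ((SW a b).baseChange F).toAffine.a₄ - ((SW a b).baseChange F).toAffine.a₁ * y1 =
          3 * x1 ^ 2 + 2 * algebraMap R F a * x1 := by
        simp [SW, WeierstrassCurve.baseChange]
      rw [hn] at hsl
      rw [eq_div_iff hy0] at hsl
      linear_combination hsl
    · have hsl := WeierstrassCurve.Affine.slope_of_X_ne (W := ((SW a b).baseChange F).toAffine)
        (y₁ := y1) (y₂ := y2) hx
      rw [← hlam, eq_div_iff (sub_ne_zero.mpr hx)] at hsl
      refine ⟨hsl, ?_⟩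
      apply mul_right_cancel₀ (sub_ne_zero.mpr hx)
      linear_combination (y1 + y2) * hsl + e1 - e2
  refine ⟨_, _, WeierstrassCurve.Affine.nonsingular_add p1 p2 hxy, lam,
    WeierstrassCurve.Affine.Point.add_some hxy, ⟨hl.1, hl.2, ?_, ?_⟩⟩
  · rw [← hlam]
    simp [WeierstrassCurve.Affine.addX, SW, WeierstrassCurve.baseChange]
  · rw [← hlam]
    simp only [WeierstrassCurve.Affine.addY, WeierstrassCurve.Affine.negAddY]
    rw [RED_negY]

section
variable {F : Type} [Field F] (w : QV F)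

lemma RED_div {u t : F} (hu : u ∈ w.ring) (h0 : w.res u ≠ 0) (ht : t * u ∈ w.ring) :
    t ∈ w.ring := by
  have hu0 : u ≠ 0 := by rintro rfl; exact h0 w.res_zero
  have hv : w.v u = 0 := by
    have h1 := (w.mem_ring_of hu0).mp hu
    have h2 : ¬ (u = 0 ∨ 0 < w.v u) := fun h => h0 ((w.res_eq_zero_iff hu).mpr h)
    push Not at h2
    exact le_antisymm h2.2 h1
  rcases eq_or_ne t 0 with rfl | ht0
  · exact w.ring.zero_mem
  rw [w.mem_ring_of ht0]
  have := (w.mem_ring_of (mul_ne_zero ht0 hu0)).mp ht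
  rw [w.mul ht0 hu0, hv] at this
  linarith

lemma RED_sq {t : F} (ht : t ^ 2 ∈ w.ring) : t ∈ w.ring := by
  rcases eq_or_ne t 0 with rfl | ht0
  · exact w.ring.zero_mem
  rw [w.mem_ring_of ht0]
  have := (w.mem_ring_of (pow_ne_zero 2 ht0)).mp ht
  rw [w.pow ht0] at this
  push_cast at this
  linarith

lemma RED_inv {t : F} (ht : t ∉ w.ring) : t ≠ 0 ∧ t⁻¹ ∈ w.ring ∧ w.res t⁻¹ = 0 := by
  have ht0 : t ≠ 0 := by rintro rfl; exact ht w.ring.zero_mem
  have hv : w.v t < 0 := by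
    by_contra h
    exact ht ((w.mem_ring_of ht0).mpr (not_lt.mp h))
  have hm : t⁻¹ ∈ w.ring := by
    rw [w.mem_ring_of (inv_ne_zero ht0), w.inv ht0]; linarith
  refine ⟨ht0, hm, (w.res_eq_zero_iff hm).mpr (Or.inr ?_)⟩
  rw [w.inv ht0]; linarith

lemma RED_pow {t : F} (ht : t ∈ w.ring) (n : ℕ) : t ^ n ∈ w.ring ∧ w.res (t ^ n) = w.res t ^ n := by
  induction n with
  | zero => simp [w.res_one, w.ring.one_mem]
  | succ n ih =>
    rw [pow_succ, pow_succ]
    exact ⟨w.ring.mul_mem _ _ ih.1 ht, by rw [w.res_mul ih.1 ht, ih.2]⟩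

lemma RED_two (h2 : (2 : w.κ) ≠ 0) : (2 : F) ∈ w.ring ∧ w.res (2 : F) = 2 ∧ (2 : F) ≠ 0 := by
  have h : (2 : F) = 1 + 1 := by norm_num
  have hm : (2 : F) ∈ w.ring := by rw [h]; exact w.ring.add_mem _ _ w.ring.one_mem w.ring.one_mem
  have hr : w.res (2 : F) = 2 := by
    rw [h, w.res_add w.ring.one_mem w.ring.one_mem, w.res_one]; norm_num
  refine ⟨hm, hr, ?_⟩
  intro h0
  rw [h0, w.res_zero] at hr
  exact h2 hr.symm

lemma RED_res_neg (t : F) : w.res (-t) = - w.res t := by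
  by_cases h : t ∈ w.ring
  · exact w.res_neg h
  · have h' : -t ∉ w.ring := fun h' => h (by simpa using w.ring.neg_mem _ h')
    unfold QV.res
    rw [dif_neg h, dif_neg h', neg_zero]

/-- the sum of two points in the kernel of reduction is in the kernel: the computation -/
lemma RED_ker {A x1 y1 x2 y2 x3 y3 lam : F} (h : RED_Add A x1 y1 x2 y2 x3 y3 lam)
    (hA : A ∈ w.ring) (h1 : x1 ∉ w.ring) (h2 : x2 ∉ w.ring) (h3 : x3 ∈ w.ring)
    (hy3 : y3 ∈ w.ring) : False := by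
  obtain ⟨n1, m1, r1⟩ := RED_inv w h1
  obtain ⟨n2, m2, r2⟩ := RED_inv w h2
  obtain ⟨e1, e2, e3, e4⟩ := h
  have key : (x1 * x2 - x3 * (x1 + x2) - 2 * x3 * (x3 + A)) = 2 * (lam * y3) := by
    rw [e4]
    have hl : lam ^ 2 = x1 + x2 + x3 + A := by rw [e3]; ring
    linear_combination (2 * x3 - x1 - x2) * hl + e2 - lam * e1
  have key2 : (x1 * x2 - x3 * (x1 + x2) - 2 * x3 * (x3 + A)) ^ 2
      = 4 * (x1 + x2 + x3 + A) * y3 ^ 2 := by
    have hl : lam ^ 2 = x1 + x2 + x3 + A := by rw [e3]; ring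
    rw [key]
    linear_combination 4 * y3 ^ 2 * hl
  set u := x1⁻¹ with hu
  set v := x2⁻¹ with hv
  have key3 : (1 - x3 * (u + v) - 2 * x3 * (x3 + A) * (u * v)) ^ 2
      = u * (v * (4 * y3 ^ 2 * (v + u + (x3 + A) * (u * v)))) := by
    have hx1 : x1 * u = 1 := mul_inv_cancel₀ n1
    have hx2 : x2 * v = 1 := mul_inv_cancel₀ n2
    have a1 : 1 - x3 * (u + v) - 2 * x3 * (x3 + A) * (u * v)
        = (u * v) * (x1 * x2 - x3 * (x1 + x2) - 2 * x3 * (x3 + A)) := by
      have q1 : u * v * (x1 * x2) = 1 := by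
        linear_combination (x2 * v) * hx1 + hx2
      have q2 : u * v * x1 = v := by linear_combination v * hx1
      have q3 : u * v * x2 = u := by linear_combination u * hx2
      linear_combination -q1 + x3 * q2 + x3 * q3
    rw [a1, mul_pow, key2]
    have q2 : u * v * x1 = v := by linear_combination v * hx1
    have q3 : u * v * x2 = u := by linear_combination u * hx2
    linear_combination (u * v * 4 * y3 ^ 2) * q2 + (u * v * 4 * y3 ^ 2) * q3
  have hu' : u ∈ w.ring := m1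
  have hv' : v ∈ w.ring := m2
  -- apply the residue map
  let φ := IsLocalRing.residue w.ring
  have hru : φ ⟨u, hu'⟩ = 0 := by rw [← w.res_of_mem]; exact r1
  have hrv : φ ⟨v, hv'⟩ = 0 := by rw [← w.res_of_mem]; exact r2
  have key4 : ((1 : w.ring) - ⟨x3, h3⟩ * (⟨u, hu'⟩ + ⟨v, hv'⟩)
      - 2 * ⟨x3, h3⟩ * (⟨x3, h3⟩ + ⟨A, hA⟩) * (⟨u, hu'⟩ * ⟨v, hv'⟩)) ^ 2
      = ⟨u, hu'⟩ * (⟨v, hv'⟩ * (4 * ⟨y3, hy3⟩ ^ 2 * (⟨v, hv'⟩ + ⟨u, hu'⟩ +
        (⟨x3, h3⟩ + ⟨A, hA⟩) * (⟨u, hu'⟩ * ⟨v, hv'⟩)))) := by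
    apply Subtype.ext
    push_cast
    exact key3
  have key5 := congrArg φ key4
  simp only [map_pow, map_sub, map_mul, map_add, map_one, hru, hrv, mul_zero, add_zero,
    sub_zero, one_pow] at key5
  exact one_ne_zero key5

end

section
variable {R : Type} [CommRing R] {a b : R} {F : Type} [Field F] [Algebra R F]
  {w : QV F} [Algebra R w.κ]

/-- `P'` is the reduction of `P` -/
def RED_Rd (P : Pt (SW a b) F) (P' : Pt (SW a b) w.κ) : Prop :=
  (P ≠ 0 ∧ xc P ∈ w.ring ∧ P' ≠ 0 ∧ xc P' = w.res (xc P) ∧ yc P' = w.res (yc P)) ∨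
    ((P = 0 ∨ xc P ∉ w.ring) ∧ P' = 0)

lemma RED_uniq {P : Pt (SW a b) F} {P' P'' : Pt (SW a b) w.κ} (h' : RED_Rd P P')
    (h'' : RED_Rd P P'') : P' = P'' := by
  rcases h' with ⟨h1, h2, h3, h4, h5⟩ | ⟨h1, h2⟩ <;> rcases h'' with ⟨k1, k2, k3, k4, k5⟩ | ⟨k1, k2⟩
  · rcases P' with _ | ⟨x, y, p⟩
    · exact absurd rfl h3
    rcases P'' with _ | ⟨x', y', p'⟩
    · exact absurd rfl k3
    have ex : x = x' := h4.trans k4.symm
    have ey : y = y' := h5.trans k5.symm
    subst ex; subst ey; rfl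
  · exact absurd k1 (by push Not; exact ⟨h1, h2⟩)
  · exact absurd h1 (by push Not; exact ⟨k1, k2⟩)
  · rw [h2, k2]

lemma RED_neg {P : Pt (SW a b) F} {P' : Pt (SW a b) w.κ} (h : RED_Rd P P') : RED_Rd (-P) (-P') := by
  rcases h with ⟨h1, h2, h3, h4, h5⟩ | ⟨h1, h2⟩
  · left
    rcases P with _ | ⟨x, y, p⟩
    · exact absurd rfl h1
    rcases P' with _ | ⟨x', y', p'⟩
    · exact absurd rfl h3
    have e1 := RED_eqn.mp p.1
    refine ⟨WeierstrassCurve.Affine.Point.some_ne_zero _, h2,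
      WeierstrassCurve.Affine.Point.some_ne_zero _, h4, ?_⟩
    rw [WeierstrassCurve.Affine.Point.neg_some, WeierstrassCurve.Affine.Point.neg_some]
    change ((SW a b).baseChange w.κ).toAffine.negY x' y' =
      w.res (((SW a b).baseChange F).toAffine.negY x y)
    rw [RED_negY, RED_negY]
    change y' = w.res y at h5
    rw [h5, RED_res_neg]
  · right
    refine ⟨?_, by rw [h2]; rfl⟩
    rcases P with _ | ⟨x, y, p⟩
    · left; rfl
    · rcases h1 with h1 | h1
      · exact absurd h1 (WeierstrassCurve.Affine.Point.some_ne_zero _)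
      · right; exact h1

/-- the hypotheses of `RED` -/
structure RED_Hyp (a b : R) (w : QV F) [Algebra R w.κ] : Prop where
  hR : ∀ r : R, algebraMap R F r ∈ w.ring ∧ w.res (algebraMap R F r) = algebraMap R w.κ r
  h2 : (2 : w.κ) ≠ 0
  hΔ : algebraMap R w.κ (SW a b).Δ ≠ 0

lemma RED_y (H : RED_Hyp a b w) {x y : F} (hx : x ∈ w.ring)
    (he : y ^ 2 = x ^ 3 + algebraMap R F a * x ^ 2 + algebraMap R F b) :
    y ∈ w.ring ∧ w.res y ^ 2 =
      w.res x ^ 3 + algebraMap R w.κ a * w.res x ^ 2 + algebraMap R w.κ b := by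
  obtain ⟨ha, ha'⟩ := H.hR a
  obtain ⟨hb, hb'⟩ := H.hR b
  have p3 := RED_pow w hx 3
  have p2 := RED_pow w hx 2
  have m1 := w.ring.mul_mem _ _ ha p2.1
  have m2 := w.ring.add_mem _ _ p3.1 m1
  have m3 := w.ring.add_mem _ _ m2 hb
  have hy : y ∈ w.ring := RED_sq w (by rw [he]; exact m3)
  refine ⟨hy, ?_⟩
  rw [← (RED_pow w hy 2).2, he, w.res_add m2 hb, w.res_add p3.1 m1, w.res_mul ha p2.1, p3.2, p2.2,
    ha', hb']

lemma RED_ns (H : RED_Hyp a b w) {x y : w.κ}
    (he : y ^ 2 = x ^ 3 + algebraMap R w.κ a * x ^ 2 + algebraMap R w.κ b) :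
    ((SW a b).baseChange w.κ).toAffine.Nonsingular x y := by
  have hΔ : ((SW a b).baseChange w.κ).toAffine.Δ ≠ 0 := by
    have : ((SW a b).baseChange w.κ).Δ = algebraMap R w.κ (SW a b).Δ := by
      simp [WeierstrassCurve.baseChange]
    exact this ▸ H.hΔ
  exact (WeierstrassCurve.Affine.equation_iff_nonsingular_of_Δ_ne_zero hΔ).mp (RED_eqn.mpr he)

/-- no singular point -/
lemma RED_sing (H : RED_Hyp a b w) {x : w.κ}
    (he : 0 = x ^ 3 + algebraMap R w.κ a * x ^ 2 + algebraMap R w.κ b)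
    (hd : 0 = 3 * x ^ 2 + 2 * algebraMap R w.κ a * x) : False := by
  have hn := RED_ns H (x := x) (y := 0) (by rw [← he]; ring)
  rw [WeierstrassCurve.Affine.nonsingular_iff] at hn
  rcases hn.2 with h | h
  · apply h
    simp [SW, WeierstrassCurve.baseChange]
    linear_combination hd
  · apply h
    simp [SW, WeierstrassCurve.baseChange]

/-- existence of the reduction of one point -/
lemma RED_ex (H : RED_Hyp a b w) (P : Pt (SW a b) F) : ∃ P' : Pt (SW a b) w.κ, RED_Rd P P' := by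
  by_cases hP : P = 0
  · exact ⟨0, Or.inr ⟨Or.inl hP, rfl⟩⟩
  by_cases hx : xc P ∈ w.ring
  · rcases P with _ | ⟨x, y, p⟩
    · exact absurd rfl hP
    have hy := RED_y H hx (RED_eqn.mp p.1)
    exact ⟨WeierstrassCurve.Affine.Point.some (w.res x) (w.res y) (RED_ns H hy.2),
      Or.inl ⟨hP, hx, WeierstrassCurve.Affine.Point.some_ne_zero _, rfl, rfl⟩⟩
  · exact ⟨0, Or.inr ⟨Or.inr hx, rfl⟩⟩

/-- two points with integral coordinates -/
lemma RED_int (H : RED_Hyp a b w) {P Q : Pt (SW a b) F} {P' Q' : Pt (SW a b) w.κ}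
    (hP : RED_Rd P P') (hQ : RED_Rd Q Q') (hP0 : P ≠ 0) (hQ0 : Q ≠ 0)
    (hPi : xc P ∈ w.ring) (hQi : xc Q ∈ w.ring) : RED_Rd (P + Q) (P' + Q') := by
  obtain ⟨m2, r2, n2⟩ := RED_two w H.h2
  rcases hP with ⟨-, -, hP', hx1, hy1⟩ | ⟨h | h, -⟩
  rotate_left
  · exact absurd h hP0
  · exact absurd hPi h
  rcases hQ with ⟨-, -, hQ', hx2, hy2⟩ | ⟨h | h, -⟩
  rotate_left
  · exact absurd h hQ0
  · exact absurd hQi h
  rcases P with _ | ⟨x1, y1, p1⟩
  · exact absurd rfl hP0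
  rcases Q with _ | ⟨x2, y2, p2⟩
  · exact absurd rfl hQ0
  rcases P' with _ | ⟨x1', y1', p1'⟩
  · exact absurd rfl hP'
  rcases Q' with _ | ⟨x2', y2', p2'⟩
  · exact absurd rfl hQ'
  change x1' = w.res x1 at hx1
  change y1' = w.res y1 at hy1
  change x2' = w.res x2 at hx2
  change y2' = w.res y2 at hy2
  change x1 ∈ w.ring at hPi
  change x2 ∈ w.ring at hQi
  have hy1i := (RED_y H hPi (RED_eqn.mp p1.1)).1
  have hy2i := (RED_y H hQi (RED_eqn.mp p2.1)).1
  obtain ⟨hAi, hA'⟩ := H.hR a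
  by_cases hopp : x1 = x2 ∧ y1 = -y2
  · have e1 : (WeierstrassCurve.Affine.Point.some x1 y1 p1 : Pt (SW a b) F) +
        WeierstrassCurve.Affine.Point.some x2 y2 p2 = 0 :=
      WeierstrassCurve.Affine.Point.add_of_Y_eq hopp.1 (by rw [RED_negY]; exact hopp.2)
    have e2 : (WeierstrassCurve.Affine.Point.some x1' y1' p1' : Pt (SW a b) w.κ) +
        WeierstrassCurve.Affine.Point.some x2' y2' p2' = 0 :=
      WeierstrassCurve.Affine.Point.add_of_Y_eq (by rw [hx1, hx2, hopp.1])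
        (by rw [RED_negY, hy1, hy2, hopp.2, RED_res_neg])
    rw [e1, e2]
    exact Or.inr ⟨Or.inl rfl, rfl⟩
  obtain ⟨x3, y3, p3, lam, hs, hadd⟩ := RED_add n2 p1 p2 hopp
  rw [hs]
  obtain ⟨d1, d2, d3, d4⟩ := hadd
  -- residues of the right hand sides
  have mx : x1 - x2 ∈ w.ring := sub_mem hPi hQi
  have my : y1 - y2 ∈ w.ring := sub_mem hy1i hy2i
  have mpy : y1 + y2 ∈ w.ring := add_mem hy1i hy2i
  have mS : x1 ^ 2 + x1 * x2 + x2 ^ 2 + algebraMap R F a * (x1 + x2) ∈ w.ring :=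
    add_mem (add_mem (add_mem (pow_mem hPi 2) (mul_mem hPi hQi)) (pow_mem hQi 2))
      (mul_mem hAi (add_mem hPi hQi))
  have rx : w.res (x1 - x2) = x1' - x2' := by rw [w.res_sub hPi hQi, hx1, hx2]
  have ry : w.res (y1 - y2) = y1' - y2' := by rw [w.res_sub hy1i hy2i, hy1, hy2]
  have rpy : w.res (y1 + y2) = y1' + y2' := by rw [w.res_add hy1i hy2i, hy1, hy2]
  have rS : w.res (x1 ^ 2 + x1 * x2 + x2 ^ 2 + algebraMap R F a * (x1 + x2)) =
      x1' ^ 2 + x1' * x2' + x2' ^ 2 + algebraMap R w.κ a * (x1' + x2') := by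
    rw [w.res_add (add_mem (add_mem (pow_mem hPi 2) (mul_mem hPi hQi)) (pow_mem hQi 2))
        (mul_mem hAi (add_mem hPi hQi)),
      w.res_add (add_mem (pow_mem hPi 2) (mul_mem hPi hQi)) (pow_mem hQi 2),
      w.res_add (pow_mem hPi 2) (mul_mem hPi hQi), w.res_mul hPi hQi,
      w.res_mul hAi (add_mem hPi hQi), w.res_add hPi hQi, (RED_pow w hPi 2).2, (RED_pow w hQi 2).2,
      hx1, hx2, hA']
  have rlam : lam ∈ w.ring → w.res lam * (x1' - x2') = y1' - y2' ∧ w.res lam * (y1' + y2') =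
      x1' ^ 2 + x1' * x2' + x2' ^ 2 + algebraMap R w.κ a * (x1' + x2') := by
    intro hl
    constructor
    · rw [← rx, ← w.res_mul hl mx, d1, ry]
    · rw [← rpy, ← w.res_mul hl mpy, d2, rS]
  by_cases hopp' : x1' = x2' ∧ y1' = -y2'
  · have e2 : (WeierstrassCurve.Affine.Point.some x1' y1' p1' : Pt (SW a b) w.κ) +
        WeierstrassCurve.Affine.Point.some x2' y2' p2' = 0 :=
      WeierstrassCurve.Affine.Point.add_of_Y_eq hopp'.1 (by rw [RED_negY]; exact hopp'.2)
    rw [e2]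
    refine Or.inr ⟨Or.inr ?_, rfl⟩
    intro h3
    change x3 ∈ w.ring at h3
    have hl : lam ∈ w.ring := by
      apply RED_sq
      have : lam ^ 2 = x3 + algebraMap R F a + x1 + x2 := by rw [d3]; ring
      rw [this]
      exact add_mem (add_mem (add_mem h3 hAi) hPi) hQi
    obtain ⟨q1, q2⟩ := rlam hl
    obtain ⟨o1, o2⟩ := hopp'
    have hy0 : y2' = 0 := by
      rw [o1, o2, sub_self, mul_zero] at q1
      have : 2 * y2' = 0 := by linear_combination q1
      exact (mul_eq_zero.mp this).resolve_left H.h2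
    have hy0' : y1' = 0 := by rw [o2, hy0, neg_zero]
    have eqn := RED_eqn.mp p1'.1
    refine RED_sing H (x := x1') ?_ ?_
    · rw [← eqn, hy0']; ring
    · rw [hy0, hy0', ← o1] at q2
      linear_combination q2
  · obtain ⟨x3', y3', p3', lam', hs', hadd'⟩ := RED_add H.h2 p1' p2' hopp'
    rw [hs']
    obtain ⟨f1, f2, f3, f4⟩ := hadd'
    have hl : lam ∈ w.ring ∧ w.res lam = lam' := by
      by_cases hx : x1' = x2'
      · have hy : y1' + y2' ≠ 0 := fun h => hopp' ⟨hx, eq_neg_of_add_eq_zero_left h⟩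
        have hl : lam ∈ w.ring := RED_div w mpy (by rw [rpy]; exact hy) (by rw [d2]; exact mS)
        refine ⟨hl, ?_⟩
        apply mul_right_cancel₀ hy
        rw [(rlam hl).2, f2]
      · have hl : lam ∈ w.ring := RED_div w mx (by rw [rx]; exact sub_ne_zero.mpr hx)
          (by rw [d1]; exact my)
        refine ⟨hl, ?_⟩
        apply mul_right_cancel₀ (sub_ne_zero.mpr hx)
        rw [(rlam hl).1, f1]
    obtain ⟨hl, hl'⟩ := hl
    have hl2 := RED_pow w hl 2
    have m1 := sub_mem hl2.1 hAi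
    have m2' := sub_mem m1 hPi
    have hx3 : x3 ∈ w.ring := by rw [d3]; exact sub_mem m2' hQi
    have hx3' : x3' = w.res x3 := by
      rw [f3, d3, w.res_sub m2' hQi, w.res_sub m1 hPi, w.res_sub hl2.1 hAi, hl2.2, hl', hA', hx1,
        hx2]
    have hd := sub_mem hx3 hPi
    have hy3' : y3' = w.res y3 := by
      rw [f4, d4, RED_res_neg, w.res_add (mul_mem hl hd) hy1i, w.res_mul hl hd,
        w.res_sub hx3 hPi, hl', hx1, hy1, hx3']
    exact Or.inl ⟨WeierstrassCurve.Affine.Point.some_ne_zero _, hx3,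
      WeierstrassCurve.Affine.Point.some_ne_zero _, hx3', hy3'⟩

/-- the kernel of reduction is closed under addition -/
lemma RED_kk (H : RED_Hyp a b w) {P Q : Pt (SW a b) F} (hPi : xc P ∉ w.ring)
    (hQi : xc Q ∉ w.ring) : P + Q = 0 ∨ xc (P + Q) ∉ w.ring := by
  obtain ⟨m2, r2, n2⟩ := RED_two w H.h2
  rcases P with _ | ⟨x1, y1, p1⟩
  · exact absurd w.ring.zero_mem hPi
  rcases Q with _ | ⟨x2, y2, p2⟩
  · exact absurd w.ring.zero_mem hQi
  by_cases hopp : x1 = x2 ∧ y1 = -y2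
  · left
    exact WeierstrassCurve.Affine.Point.add_of_Y_eq hopp.1 (by rw [RED_negY]; exact hopp.2)
  right
  obtain ⟨x3, y3, p3, lam, hs, hadd⟩ := RED_add n2 p1 p2 hopp
  rw [hs]
  intro h3
  change x3 ∈ w.ring at h3
  exact RED_ker w hadd (H.hR a).1 hPi hQi h3 (RED_y H h3 (RED_eqn.mp p3.1)).1

/-- one point with integral coordinates, the other one in the kernel -/
lemma RED_ik (H : RED_Hyp a b w) {P Q : Pt (SW a b) F} {P' : Pt (SW a b) w.κ}
    (hP : RED_Rd P P') (hP0 : P ≠ 0) (hPi : xc P ∈ w.ring) (hQi : xc Q ∉ w.ring) :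
    RED_Rd (P + Q) P' := by
  have hneg : ∀ S : Pt (SW a b) F, xc (-S) = xc S := by
    intro S
    rcases S with _ | ⟨x, y, p⟩ <;> rfl
  have hR0 : P + Q ≠ 0 := by
    intro h
    have : P = -Q := eq_neg_of_add_eq_zero_left h
    rw [this, hneg] at hPi
    exact hQi hPi
  have hRi : xc (P + Q) ∈ w.ring := by
    by_contra hRi
    have hQi' : xc (-Q) ∉ w.ring := by rw [hneg]; exact hQi
    have := RED_kk H hRi hQi'
    rw [add_neg_cancel_right] at this
    rcases this with h | h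
    · exact hP0 h
    · exact h hPi
  obtain ⟨R', hR'⟩ := RED_ex H (P + Q)
  have hnP := RED_neg hP
  have h1 := RED_int H hR' hnP hR0 (neg_ne_zero.mpr hP0) hRi (by rw [hneg]; exact hPi)
  have e : P + Q + -P = Q := by abel
  rw [e] at h1
  have h2 : RED_Rd Q (0 : Pt (SW a b) w.κ) := Or.inr ⟨Or.inr hQi, rfl⟩
  have h3 := RED_uniq h1 h2
  have h4 : R' = P' := by
    have := eq_neg_of_add_eq_zero_left h3
    rw [this, neg_neg]
  rw [← h4]
  exact hR'

lemma RED_main (H : RED_Hyp a b w) {P Q : Pt (SW a b) F} {P' Q' : Pt (SW a b) w.κ}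
    (hP : RED_Rd P P') (hQ : RED_Rd Q Q') : RED_Rd (P + Q) (P' + Q') := by
  by_cases hP0 : P = 0
  · have : P' = 0 := by
      rcases hP with ⟨h, -⟩ | ⟨-, h⟩
      · exact absurd hP0 h
      · exact h
    rw [hP0, this, zero_add, zero_add]; exact hQ
  by_cases hQ0 : Q = 0
  · have : Q' = 0 := by
      rcases hQ with ⟨h, -⟩ | ⟨-, h⟩
      · exact absurd hQ0 h
      · exact h
    rw [hQ0, this, add_zero, add_zero]; exact hP
  by_cases hPi : xc P ∈ w.ring <;> by_cases hQi : xc Q ∈ w.ring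
  · exact RED_int H hP hQ hP0 hQ0 hPi hQi
  · have : Q' = 0 := by
      rcases hQ with ⟨-, h, -⟩ | ⟨-, h⟩
      · exact absurd h hQi
      · exact h
    rw [this, add_zero]
    exact RED_ik H hP hP0 hPi hQi
  · have : P' = 0 := by
      rcases hP with ⟨-, h, -⟩ | ⟨-, h⟩
      · exact absurd h hPi
      · exact h
    rw [this, zero_add, add_comm P Q]
    exact RED_ik H hQ hQ0 hQi hPi
  · have h1 : P' = 0 := by
      rcases hP with ⟨-, h, -⟩ | ⟨-, h⟩
      · exact absurd h hPi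
      · exact h
    have h2 : Q' = 0 := by
      rcases hQ with ⟨-, h, -⟩ | ⟨-, h⟩
      · exact absurd h hQi
      · exact h
    rw [h1, h2, add_zero]
    exact Or.inr ⟨RED_kk H hPi hQi, rfl⟩

end

/-- RED: reduction of points is a homomorphism, good reduction -/
theorem RED {R : Type} [CommRing R] (a b : R) {F : Type} [Field F] [Algebra R F]
    (w : QV F) [Algebra R w.κ]
    (hR : ∀ r : R, algebraMap R F r ∈ w.ring ∧ w.res (algebraMap R F r) = algebraMap R w.κ r)
    (h2 : (2 : w.κ) ≠ 0) (hΔ : algebraMap R w.κ (SW a b).Δ ≠ 0) :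
    ∃ red : Pt (SW a b) F →+ Pt (SW a b) w.κ,
      (∀ P, P ≠ 0 → xc P ∈ w.ring →
        red P ≠ 0 ∧ xc (red P) = w.res (xc P) ∧ yc (red P) = w.res (yc P)) ∧
      (∀ P, xc P ∉ w.ring → red P = 0) := by
  have H : RED_Hyp a b w := ⟨hR, h2, hΔ⟩
  choose red hred using RED_ex (F := F) H
  refine ⟨⟨⟨red, ?_⟩, fun P Q => ?_⟩, ?_, ?_⟩
  · exact RED_uniq (hred 0) (Or.inr ⟨Or.inl rfl, rfl⟩)
  · exact RED_uniq (hred (P + Q)) (RED_main H (hred P) (hred Q))
  · intro P hP hx
    rcases hred P with ⟨-, -, h3, h4, h5⟩ | ⟨h | h, -⟩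
    · exact ⟨h3, h4, h5⟩
    · exact absurd h hP
    · exact absurd hx h
  · intro P hx
    rcases hred P with ⟨-, h, -⟩ | ⟨-, h⟩
    · exact absurd h hx
    · exact h

end Pool.Agent.VM
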